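import Pool.Agent.H6.TP.Targets

/-!
# The mean of the modulus of a generic wave
-/

set_option autoImplicit false

open Finset Pool.Agent.H6.N4D Pool.Agent.H6.TP

namespace Pool.Agent.H67.TP

theorem pf_CSA (hEQC : T_EQC) (hCSI : T_CSI) : T_CSA := by
  intro s hs
  obtain ⟨R, hR⟩ := hEQC (fun x => |Real.cos (2 * Real.pi * x)|) (by fun_prop)
    (fun x => by
      rw [mul_add, mul_one, Real.cos_add_two_pi]) s hs
  refine ⟨R, fun η hη => ?_⟩
  obtain ⟨N₀, hN₀⟩ := hR η hη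
  refine ⟨N₀, fun N hN n θ φ hG => ?_⟩
  have h := hN₀ N hN n θ φ hG
  rw [hCSI] at h
  exact h

end Pool.Agent.H67.TP
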